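import Pool.Agent.X45.PartHyp

set_option autoImplicit false

namespace Pool.Agent.Results.MP_2c613a_co.Infinite

open Pool.Agent.X45.PartHyp Finset

/-- `f(r)`: the supremum (in the extended naturals) of `τ*(H)` over the intersecting `r`-partite
hypergraphs `H` having a non-trivial vertex cover. -/
noncomputable def f (r : ℕ) : ℕ∞ :=
  sSup {m : ℕ∞ | ∃ (s : Fin r → ℕ) (E : Finset (∀ i, Fin (s i))),
    Spanning s E ∧ Intersecting s E ∧ (∃ T, NontrivialCover s E T) ∧ m = (tauStar s E : ℕ∞)}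

/-- Sizes of the sides in the example. -/
def sz (r N : ℕ) (i : Fin r) : ℕ := if (i : ℕ) = 0 then 1 else 2 * N

/-- Edges of the example. -/
def EE (r N : ℕ) : Finset (∀ i, Fin (sz r N i)) :=
  univ.filter (fun e => (∀ i : Fin r, (i : ℕ) ≠ 0 → ((e i : ℕ) < N)) ∨
    (∀ i : Fin r, (i : ℕ) ≠ 0 → (N ≤ (e i : ℕ))))

lemma sz_pos (r N : ℕ) (hN : 1 ≤ N) (i : Fin r) : 0 < sz r N i := by
  unfold sz; split_ifs <;> omega

lemma low_lt (r N : ℕ) (hN : 1 ≤ N) (i : Fin r) : (if (i : ℕ) = 0 then 0 else N) < sz r N i := by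
  unfold sz; split_ifs <;> omega

lemma spanning (r N : ℕ) (hN : 1 ≤ N) : Spanning (sz r N) (EE r N) := by
  intro i x
  by_cases hx : (i : ℕ) = 0 ∨ (x : ℕ) < N
  · refine ⟨Function.update (fun j => ⟨0, sz_pos r N hN j⟩) i x, ?_, Function.update_self _ _ _⟩
    unfold EE
    rw [mem_filter]
    refine ⟨mem_univ _, Or.inl fun j hj => ?_⟩
    by_cases h : j = i
    · subst h
      rw [Function.update_self]
      rcases hx with hx | hx
      · exact absurd hx hj
      · exact hx
    · rw [Function.update_of_ne h]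
      show 0 < N
      omega
  · push Not at hx
    refine ⟨Function.update (fun j => ⟨_, low_lt r N hN j⟩) i x, ?_,
      Function.update_self _ _ _⟩
    unfold EE
    rw [mem_filter]
    refine ⟨mem_univ _, Or.inr fun j hj => ?_⟩
    by_cases h : j = i
    · subst h
      rw [Function.update_self]
      exact hx.2
    · rw [Function.update_of_ne h]
      show N ≤ if (j : ℕ) = 0 then 0 else N
      rw [if_neg hj]

lemma intersecting (r N : ℕ) (hr : 1 ≤ r) : Intersecting (sz r N) (EE r N) := by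
  intro e _ f _
  refine ⟨⟨0, hr⟩, ?_⟩
  have h : sz r N ⟨0, hr⟩ = 1 := by simp [sz]
  apply Fin.ext
  have h1 := (e ⟨0, hr⟩).2
  have h2 := (f ⟨0, hr⟩).2
  omega

/-- Every non-trivial cover of the example has at least `N` elements. -/
lemma cover_large (r N : ℕ) (hr : 3 ≤ r) (hN : 1 ≤ N) (T : Finset (Σ i, Fin (sz r N i)))
    (hT : NontrivialCover (sz r N) (EE r N) T) : N ≤ T.card := by
  obtain ⟨h1, h2, h3⟩ := hT
  have hr0 : 0 < r := by omega
  -- the single vertex of side 0 is not in T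
  have h0 : ∀ x : Fin (sz r N ⟨0, hr0⟩), (⟨⟨0, hr0⟩, x⟩ : Σ i, Fin (sz r N i)) ∉ T := by
    intro x
    obtain ⟨y, hy⟩ := h3 ⟨0, hr0⟩
    have h : sz r N ⟨0, hr0⟩ = 1 := by simp [sz]
    have : x = y := by
      apply Fin.ext
      have a1 := x.2
      have a2 := y.2
      omega
    rw [this]
    exact hy
  by_contra hlt
  push Not at hlt
  have key : ∀ i : Fin r, (i : ℕ) ≠ 0 → ∃ x : Fin (sz r N i), (x : ℕ) < N ∧
      (⟨i, x⟩ : Σ i, Fin (sz r N i)) ∉ T := by
    intro i hi
    by_contra hno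
    push Not at hno
    have hs : sz r N i = 2 * N := by simp [sz, hi]
    have hinj : N ≤ T.card := by
      have : (univ : Finset (Fin N)).card ≤ T.card := by
        refine card_le_card_of_injOn
          (fun x : Fin N => (⟨i, ⟨(x : ℕ), by rw [hs]; omega⟩⟩ : Σ i, Fin (sz r N i))) ?_ ?_
        · intro x _
          exact hno _ x.2
        · intro x _ y _ hxy
          simp only [Sigma.mk.injEq, heq_eq_eq, true_and, Fin.mk.injEq] at hxy
          exact Fin.ext hxy
      simpa using this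
    omega
  have hsz0 : ∀ i : Fin r, (i : ℕ) = 0 → 0 < sz r N i := by
    intro i hi
    simp [sz, hi]
  let e : ∀ i, Fin (sz r N i) := fun i =>
    if h : (i : ℕ) = 0 then ⟨0, hsz0 i h⟩ else Classical.choose (key i h)
  have he : e ∈ EE r N := by
    unfold EE
    rw [mem_filter]
    refine ⟨mem_univ _, Or.inl fun i hi => ?_⟩
    simp only [e, dif_neg hi]
    exact (Classical.choose_spec (key i hi)).1
  obtain ⟨i, hi⟩ := h1 e he
  by_cases h : (i : ℕ) = 0
  · have : i = ⟨0, hr0⟩ := Fin.ext h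
    subst this
    exact h0 _ hi
  · simp only [e, dif_neg h] at hi
    exact (Classical.choose_spec (key i h)).2 hi

/-- The example has a non-trivial cover. -/
lemma cover_exists (r N : ℕ) (hr : 3 ≤ r) (hN : 1 ≤ N) :
    ∃ T, NontrivialCover (sz r N) (EE r N) T := by
  refine ⟨univ.filter (fun p => ((p.1 : ℕ) = 1 ∧ (p.2 : ℕ) < N) ∨
    ((p.1 : ℕ) = 2 ∧ N ≤ (p.2 : ℕ))), ?_, ?_, ?_⟩
  · intro e he
    unfold EE at he
    rw [mem_filter] at he
    rcases he.2 with h | h
    · refine ⟨⟨1, by omega⟩, ?_⟩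
      rw [mem_filter]
      exact ⟨mem_univ _, Or.inl ⟨rfl, h _ (by simp)⟩⟩
    · refine ⟨⟨2, by omega⟩, ?_⟩
      rw [mem_filter]
      exact ⟨mem_univ _, Or.inr ⟨rfl, h _ (by simp)⟩⟩
  · intro e _
    refine ⟨⟨0, by omega⟩, ?_⟩
    rw [mem_filter]
    rintro ⟨_, h | h⟩
    · exact absurd h.1 (by simp)
    · exact absurd h.1 (by simp)
  · intro i
    by_cases h1 : (i : ℕ) = 1
    · refine ⟨⟨N, by simp [sz, h1]; omega⟩, ?_⟩
      rw [mem_filter]
      rintro ⟨_, h | h⟩
      · exact absurd h.2 (by simp)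
      · have := h.1
        simp only at this
        omega
    · have hpos : 0 < sz r N i := by unfold sz; split_ifs <;> omega
      refine ⟨⟨0, hpos⟩, ?_⟩
      rw [mem_filter]
      rintro ⟨_, h | h⟩
      · exact h1 h.1
      · have := h.2
        simp only at this
        omega

lemma two_no_cover (s : Fin 2 → ℕ) (E : Finset (∀ i, Fin (s i))) (hS : Spanning s E)
    (hI : Intersecting s E) (T : Finset (Σ i, Fin (s i))) (hT : NontrivialCover s E T) :
    False := by
  obtain ⟨h1, h2, h3⟩ := hT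
  obtain ⟨x0, hx0⟩ := h3 0
  obtain ⟨x1, hx1⟩ := h3 1
  obtain ⟨e, he, hex⟩ := hS 0 x0
  obtain ⟨g, hg, hgx⟩ := hS 1 x1
  -- e contains x0, g contains x1; each is covered, hence by its other vertex
  have he1 : (⟨1, e 1⟩ : Σ i, Fin (s i)) ∈ T := by
    obtain ⟨i, hi⟩ := h1 e he
    fin_cases i
    · exact absurd (hex ▸ hi) hx0
    · exact hi
  have hg0 : (⟨0, g 0⟩ : Σ i, Fin (s i)) ∈ T := by
    obtain ⟨i, hi⟩ := h1 g hg
    fin_cases i
    · exact hi
    · exact absurd (hgx ▸ hi) hx1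
  obtain ⟨i, hi⟩ := hI e he g hg
  fin_cases i
  · have : e 0 = g 0 := hi
    rw [← this, hex] at hg0
    exact hx0 hg0
  · have : e 1 = g 1 := hi
    rw [this, hgx] at he1
    exact hx1 he1

/-- **Result.** `f(r) = ∞` for every `r ≥ 3`, and for `r = 2` the supremum is over the empty
set (no intersecting 2-partite hypergraph has a non-trivial vertex cover), so `f(2) = 0`. -/
theorem result : (∀ r : ℕ, 3 ≤ r → f r = ⊤) ∧ f 2 = 0 ∧
    (∀ (s : Fin 2 → ℕ) (E : Finset (∀ i, Fin (s i))), Spanning s E → Intersecting s E →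
      ¬ ∃ T, NontrivialCover s E T) := by
  have h2 : (∀ (s : Fin 2 → ℕ) (E : Finset (∀ i, Fin (s i))), Spanning s E →
      Intersecting s E → ¬ ∃ T, NontrivialCover s E T) := by
    rintro s E hS hI ⟨T, hT⟩
    exact two_no_cover s E hS hI T hT
  refine ⟨?_, ?_, h2⟩
  · intro r hr
    unfold f
    rw [sSup_eq_top]
    intro b hb
    obtain ⟨m, rfl⟩ := ENat.ne_top_iff_exists.1 hb.ne
    refine ⟨(tauStar (sz r (m + 1)) (EE r (m + 1)) : ℕ∞), ?_, ?_⟩
    · exact ⟨_, _, spanning r (m + 1) (by omega), intersecting r (m + 1) (by omega),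
        cover_exists r (m + 1) hr (by omega), rfl⟩
    · have : m + 1 ≤ tauStar (sz r (m + 1)) (EE r (m + 1)) := by
        unfold tauStar
        obtain ⟨T, hT⟩ := cover_exists r (m + 1) hr (by omega)
        refine le_csInf ⟨T.card, T, hT, rfl⟩ ?_
        rintro k ⟨T', hT', rfl⟩
        exact cover_large r (m + 1) hr (by omega) T' hT'
      exact_mod_cast this
  · unfold f
    rw [← bot_eq_zero, sSup_eq_bot]
    rintro m ⟨s, E, hS, hI, hT, -⟩
    exact absurd hT (h2 s E hS hI)

end Pool.Agent.Results.MP_2c613a_co.Infinite
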