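import Pool.Agent.X45.PartHyp

set_option autoImplicit false

namespace Pool.Agent.Results.MP_2c613a_co.LinearBound

open Pool.Agent.X45.PartHyp Finset

variable {r : ℕ} {s : Fin r → ℕ} {E : Finset (∀ i, Fin (s i))}

lemma exists_ne_of_two {m : ℕ} (hm : 2 ≤ m) (a : Fin m) : ∃ x : Fin m, x ≠ a := by
  have : Nontrivial (Fin m) := Fin.nontrivial_iff_two_le.2 hm
  exact exists_ne a

lemma exists_ne_of_three {m : ℕ} (hm : 3 ≤ m) (a b : Fin m) : ∃ x : Fin m, x ≠ a ∧ x ≠ b := by
  by_contra h
  push Not at h
  have : (univ : Finset (Fin m)) ⊆ {a, b} := by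
    intro x _
    rw [mem_insert, mem_singleton]
    by_cases hx : x = a
    · exact Or.inl hx
    · exact Or.inr (h x hx)
  have h2 := card_le_card this
  rw [card_univ, Fintype.card_fin] at h2
  have h3 := card_le_two (a := a) (b := b)
  omega

/-- The two-edge cover. -/
lemma two_edge_cover (hI : Intersecting s E) (hs : ∀ i, 2 ≤ s i)
    (e e' : ∀ i, Fin (s i)) (he : e ∈ E) (he' : e' ∈ E) (i : Fin r) (hi : e i ≠ e' i)
    (hj : ∀ j, j ≠ i → s j = 2 → e j = e' j) :
    ∃ T, NontrivialCover s E T ∧ T.card ≤ 2 * r - 3 := by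
  obtain ⟨k, hk⟩ := hI e he e' he'
  have hki : k ≠ i := by
    rintro rfl
    exact hi hk
  let A : Finset (Σ i, Fin (s i)) := ((univ : Finset (Fin r)).erase i).image (fun j => ⟨j, e j⟩)
  let B : Finset (Σ i, Fin (s i)) :=
    (((univ : Finset (Fin r)).erase i).erase k).image (fun j => ⟨j, e' j⟩)
  have hA : ∀ j (x : Fin (s j)), (⟨j, x⟩ : Σ i, Fin (s i)) ∈ A ↔ (j ≠ i ∧ x = e j) := by
    intro j x
    simp only [A, mem_image, mem_erase, mem_univ, and_true]
    constructor
    · rintro ⟨a, ha, hax⟩
      rw [Sigma.mk.injEq] at hax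
      obtain ⟨rfl, hax⟩ := hax
      exact ⟨ha, (eq_of_heq hax).symm⟩
    · rintro ⟨h1, rfl⟩
      exact ⟨j, h1, rfl⟩
  have hB : ∀ j (x : Fin (s j)), (⟨j, x⟩ : Σ i, Fin (s i)) ∈ B ↔ (j ≠ i ∧ j ≠ k ∧ x = e' j) := by
    intro j x
    simp only [B, mem_image, mem_erase, mem_univ, and_true]
    constructor
    · rintro ⟨a, ha, hax⟩
      rw [Sigma.mk.injEq] at hax
      obtain ⟨rfl, hax⟩ := hax
      exact ⟨ha.2, ha.1, (eq_of_heq hax).symm⟩
    · rintro ⟨h1, h2, rfl⟩
      exact ⟨j, ⟨h2, h1⟩, rfl⟩
  refine ⟨A ∪ B, ⟨?_, ?_, ?_⟩, ?_⟩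
  · intro g hg
    by_contra hno
    push Not at hno
    obtain ⟨a, ha⟩ := hI g hg e he
    have h1 : a = i := by
      by_contra hne
      exact hno a (mem_union_left _ ((hA a _).2 ⟨hne, ha⟩))
    obtain ⟨b, hb⟩ := hI g hg e' he'
    have h2 : b = i := by
      by_contra hne
      by_cases hbk : b = k
      · subst hbk
        exact hno b (mem_union_left _ ((hA b _).2 ⟨hne, hb.trans hk.symm⟩))
      · exact hno b (mem_union_right _ ((hB b _).2 ⟨hne, hbk, hb⟩))
    subst h1
    subst h2
    exact hi (ha.symm.trans hb)
  · intro g _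
    refine ⟨i, ?_⟩
    rw [mem_union, hA, hB]
    rintro (h | h)
    · exact h.1 rfl
    · exact h.1 rfl
  · intro j
    by_cases hji : j = i
    · subst hji
      refine ⟨e j, ?_⟩
      rw [mem_union, hA, hB]
      rintro (h | h)
      · exact h.1 rfl
      · exact h.1 rfl
    · by_cases h2 : s j = 2
      · obtain ⟨x, hx⟩ := exists_ne_of_two (hs j) (e j)
        refine ⟨x, ?_⟩
        rw [mem_union, hA, hB]
        rintro (h | h)
        · exact hx h.2
        · exact hx (h.2.2.trans (hj j hji h2).symm)
      · have h3 : 3 ≤ s j := by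
          have := hs j
          omega
        obtain ⟨x, hx1, hx2⟩ := exists_ne_of_three h3 (e j) (e' j)
        refine ⟨x, ?_⟩
        rw [mem_union, hA, hB]
        rintro (h | h)
        · exact hx1 h.2
        · exact hx2 h.2.2
  · have hr1 : ((univ : Finset (Fin r)).erase i).card = r - 1 := by
      rw [card_erase_of_mem (mem_univ _), card_univ, Fintype.card_fin]
    have hr2 : (((univ : Finset (Fin r)).erase i).erase k).card = r - 1 - 1 := by
      rw [card_erase_of_mem (mem_erase.2 ⟨hki, mem_univ _⟩), hr1]
    have h1 : A.card ≤ r - 1 := by rw [← hr1]; exact card_image_le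
    have h2 : B.card ≤ r - 1 - 1 := by rw [← hr2]; exact card_image_le
    have h3 := card_union_le A B
    have h4 : 2 ≤ r := by
      have : ({i, k} : Finset (Fin r)).card ≤ (univ : Finset (Fin r)).card :=
        card_le_card (subset_univ _)
      rw [card_pair hki.symm, card_univ, Fintype.card_fin] at this
      exact this
    omega

/-- Existence of a small non-trivial cover. -/
lemma exists_small (hr : 3 ≤ r) (hS : Spanning s E) (hI : Intersecting s E)
    (hs : ∀ i, 2 ≤ s i) (hT : ∃ T, NontrivialCover s E T) :
    ∃ T, NontrivialCover s E T ∧ T.card ≤ 2 * r - 3 := by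
  classical
  have hr0 : 0 < r := by omega
  -- case 1: two edges differing in at most one side of size two
  by_cases hc : ∃ e ∈ E, ∃ e' ∈ E, ∃ i, e i ≠ e' i ∧ ∀ j, j ≠ i → s j = 2 → e j = e' j
  · obtain ⟨e, he, e', he', i, hi, hj⟩ := hc
    exact two_edge_cover hI hs e e' he he' i hi hj
  · push Not at hc
    -- there are two distinct edges
    obtain ⟨e0, he0, -⟩ := hS ⟨0, hr0⟩ ⟨0, by have := hs ⟨0, hr0⟩; omega⟩
    obtain ⟨y0, hy0⟩ := exists_ne_of_two (hs ⟨0, hr0⟩) (e0 ⟨0, hr0⟩)
    obtain ⟨e1, he1, he1y⟩ := hS ⟨0, hr0⟩ y0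
    have hne : e0 ⟨0, hr0⟩ ≠ e1 ⟨0, hr0⟩ := by rw [he1y]; exact hy0.symm
    obtain ⟨j0, -, hj02, hj0⟩ := hc e0 he0 e1 he1 _ hne
    by_cases hall : ∀ i, s i = 2
    · -- all sides have size two: the given cover is small
      obtain ⟨T, hT⟩ := hT
      refine ⟨T, hT, ?_⟩
      have hinj : T.card ≤ (univ : Finset (Fin r)).card := by
        refine card_le_card_of_injOn (fun p => p.1) (fun _ _ => mem_univ _) ?_
        rintro ⟨i, x⟩ hx ⟨j, y⟩ hy hij
        simp only at hij
        subst hij
        obtain ⟨z, hz⟩ := hT.2.2 i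
        have hx' : x ≠ z := by rintro rfl; exact hz hx
        have hy' : y ≠ z := by rintro rfl; exact hz hy
        have h2 := hall i
        have : x = y := by
          apply Fin.ext
          have a1 := x.2
          have a2 := y.2
          have a3 := z.2
          have b1 : (x : ℕ) ≠ z := fun h => hx' (Fin.ext h)
          have b2 : (y : ℕ) ≠ z := fun h => hy' (Fin.ext h)
          omega
        rw [this]
      rw [card_univ, Fintype.card_fin] at hinj
      omega
    · push Not at hall
      obtain ⟨l, hl⟩ := hall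
      have hl3 : 3 ≤ s l := by have := hs l; omega
      obtain ⟨y1, hy1⟩ := exists_ne_of_two (hs j0) (e0 j0)
      let x : ∀ i, Fin (s i) := Function.update e0 j0 y1
      have hxj0 : x j0 = y1 := Function.update_self _ _ _
      have hxne : ∀ i, i ≠ j0 → x i = e0 i := fun i hi => Function.update_of_ne hi _ _
      -- the possibly uncovered edge
      let z : Fin (s l) := if h : ∃ g ∈ E, ∀ j, s j = 2 → g j ≠ x j then
        (Classical.choose h) l else e0 l
      let A : Finset (Σ i, Fin (s i)) :=
        ((univ : Finset (Fin r)).filter (fun j => s j = 2)).image (fun j => ⟨j, x j⟩)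
      have hA : ∀ j (y : Fin (s j)), (⟨j, y⟩ : Σ i, Fin (s i)) ∈ A ↔ (s j = 2 ∧ y = x j) := by
        intro j y
        simp only [A, mem_image, mem_filter, mem_univ, true_and]
        constructor
        · rintro ⟨a, ha, hax⟩
          rw [Sigma.mk.injEq] at hax
          obtain ⟨rfl, hax⟩ := hax
          exact ⟨ha, (eq_of_heq hax).symm⟩
        · rintro ⟨h1, rfl⟩
          exact ⟨j, h1, rfl⟩
      have hlz : ∀ j (y : Fin (s j)), (⟨j, y⟩ : Σ i, Fin (s i)) ∈
          insert (⟨l, z⟩ : Σ i, Fin (s i)) A →
          (s j = 2 ∧ y = x j) ∨ (j = l ∧ (⟨j, y⟩ : Σ i, Fin (s i)) = ⟨l, z⟩) := by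
        intro j y h
        rw [mem_insert] at h
        rcases h with h | h
        · right
          refine ⟨?_, h⟩
          rw [Sigma.mk.injEq] at h
          exact h.1
        · exact Or.inl ((hA j y).1 h)
      refine ⟨insert (⟨l, z⟩ : Σ i, Fin (s i)) A, ⟨?_, ?_, ?_⟩, ?_⟩
      · intro g hg
        by_cases h : ∃ j, s j = 2 ∧ g j = x j
        · obtain ⟨j, hj2, hj⟩ := h
          exact ⟨j, mem_insert_of_mem ((hA j _).2 ⟨hj2, hj⟩)⟩
        · push Not at h
          have hex : ∃ g ∈ E, ∀ j, s j = 2 → g j ≠ x j := ⟨g, hg, h⟩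
          have hspec := Classical.choose_spec hex
          have hz : z = (Classical.choose hex) l := by simp only [z, dif_pos hex]
          refine ⟨l, ?_⟩
          rw [mem_insert]
          left
          rw [hz]
          by_cases heq : g l = (Classical.choose hex) l
          · rw [heq]
          · exfalso
            obtain ⟨j, -, hj2, hj⟩ := hc g hg _ hspec.1 l heq
            apply hj
            have c1 := h j hj2
            have c2 := hspec.2 j hj2
            apply Fin.ext
            have a1 := (g j).2
            have a2 := ((Classical.choose hex) j).2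
            have a3 := (x j).2
            have b1 : (g j : ℕ) ≠ x j := fun h => c1 (Fin.ext h)
            have b2 : (((Classical.choose hex) j : Fin (s j)) : ℕ) ≠ x j :=
              fun h => c2 (Fin.ext h)
            omega
      · intro g hg
        by_contra hno
        push Not at hno
        have hgx : ∀ j, s j = 2 → g j = x j := by
          intro j hj2
          rcases hlz j _ (hno j) with h | h
          · exact h.2
          · exact absurd (h.1 ▸ hj2) hl
        have hg0 : g j0 ≠ e0 j0 := by
          rw [hgx j0 hj02, hxj0]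
          exact hy1
        obtain ⟨j, hjj0, hj2, hj⟩ := hc g hg e0 he0 j0 hg0
        exact hj ((hgx j hj2).trans (hxne j hjj0))
      · intro j
        by_cases hj2 : s j = 2
        · obtain ⟨y, hy⟩ := exists_ne_of_two (hs j) (x j)
          refine ⟨y, fun h => ?_⟩
          rcases hlz j y h with h | h
          · exact hy h.2
          · exact hl (h.1 ▸ hj2)
        · by_cases hjl : j = l
          · subst hjl
            obtain ⟨y, hy⟩ := exists_ne_of_two (hs j) z
            refine ⟨y, fun h => ?_⟩
            rcases hlz j y h with h | h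
            · exact hj2 h.1
            · have := h.2
              rw [Sigma.mk.injEq] at this
              exact hy (eq_of_heq this.2)
          · refine ⟨e0 j, fun h => ?_⟩
            rcases hlz j _ h with h | h
            · exact hj2 h.1
            · exact hjl h.1
      · have h1 : A.card ≤ r - 1 := by
          refine card_image_le.trans ?_
          have : (univ : Finset (Fin r)).filter (fun j => s j = 2) ⊆ univ.erase l := by
            intro j hj
            rw [mem_filter] at hj
            rw [mem_erase]
            refine ⟨?_, mem_univ _⟩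
            rintro rfl
            exact hl hj.2
          have h2 := card_le_card this
          rw [card_erase_of_mem (mem_univ _), card_univ, Fintype.card_fin] at h2
          exact h2
        have h2 := card_insert_le (⟨l, z⟩ : Σ i, Fin (s i)) A
        omega

/-- **Result.** For `r ≥ 3`, every intersecting `r`-partite hypergraph in which every side has at
least two vertices (equivalently, no vertex lies in all edges) and which has a non-trivial vertex
cover has one of size at most `2r - 3`. -/
theorem result : ∀ r : ℕ, 3 ≤ r → ∀ (s : Fin r → ℕ) (E : Finset (∀ i, Fin (s i))),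
    Spanning s E → Intersecting s E → (∀ i, 2 ≤ s i) → (∃ T, NontrivialCover s E T) →
    tauStar s E ≤ 2 * r - 3 := by
  intro r hr s E hS hI hs hT
  obtain ⟨T, hT1, hT2⟩ := exists_small hr hS hI hs hT
  unfold tauStar
  refine le_trans (Nat.sInf_le (m := T.card) ?_) hT2
  exact ⟨T, hT1, rfl⟩

end Pool.Agent.Results.MP_2c613a_co.LinearBound
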